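import Mathlib
import Pool.Agent.H.MP_435399_an.C

namespace Pool.Agent.H.MP_c1f8f0_an

open MeasureTheory Set Filter Topology Metric Complex Real Pool.Agent.H.MP_435399_an

lemma off (ψ : ℝ → ℝ) {n m : ℕ} (h : n ≠ m) :
    ∫ z, z ^ n * (starRingEnd ℂ) z ^ m * (ψ ‖z‖ : ℝ) ∂mu = 0 := by
  have d : (n : ℂ) - m ≠ 0 := sub_ne_zero.2 (by exact_mod_cast h)
  let u := Circle.exp (π / (n - m))
  have e := (rotation u).measurePreserving.setIntegral_preimage_emb
    (rotation u).toHomeomorph.measurableEmbedding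
    (fun z => z ^ n * (starRingEnd ℂ) z ^ m * (ψ ‖z‖ : ℝ)) (ball 0 1)
  have b : rotation u ⁻¹' ball 0 1 = ball 0 1 := by
    ext z; simp only [mem_preimage, mem_ball_zero_iff, LinearIsometryEquiv.norm_map]
  have c : (u : ℂ) ^ n * (starRingEnd ℂ) u ^ m = -1 := by
    rw [Circle.coe_exp, ← exp_conj, ← Complex.exp_nat_mul, ← Complex.exp_nat_mul, ← Complex.exp_add,
      ← exp_pi_mul_I]
    congr 1
    simp only [map_mul, conj_ofReal, conj_I]
    push_cast; field_simp; ring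
  rw [b] at e
  have : ∫ z, z ^ n * (starRingEnd ℂ) z ^ m * (ψ ‖z‖ : ℝ) ∂mu =
      -∫ z, z ^ n * (starRingEnd ℂ) z ^ m * (ψ ‖z‖ : ℝ) ∂mu := by
    rw [← integral_neg]
    refine e.symm.trans (integral_congr_ae (ae_of_all _ fun z => ?_))
    simp only [LinearIsometryEquiv.norm_map]
    rw [rotation_apply, map_mul, mul_pow, mul_pow]
    linear_combination (z ^ n * (starRingEnd ℂ) z ^ m * (ψ ‖z‖ : ℝ)) * c
  linear_combination this / 2

lemma pw_le {z : ℂ} (hz : z ∈ ball (0 : ℂ) 1) (n : ℕ) : ‖z‖ ^ n ≤ 1 :=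
  pow_le_one₀ (norm_nonneg _) (mem_ball_zero_iff.1 hz).le

lemma orth {ψ : ℝ → ℝ} (hi : Integrable (fun z : ℂ => ψ ‖z‖) mu) (N : ℕ) (a : ℕ → ℂ) :
    Integrable (fun z : ℂ => ‖∑ n ∈ Finset.range N, a n * z ^ n‖ ^ 2 * ψ ‖z‖) mu ∧
    ∫ z, ‖∑ n ∈ Finset.range N, a n * z ^ n‖ ^ 2 * ψ ‖z‖ ∂mu =
      ∑ n ∈ Finset.range N, ‖a n‖ ^ 2 * ∫ z, ‖z‖ ^ (2 * n) * ψ ‖z‖ ∂mu := by
  have i : ∀ n m, Integrable (fun z : ℂ => a n * (starRingEnd ℂ) (a m) *
      (z ^ n * (starRingEnd ℂ) z ^ m * (ψ ‖z‖ : ℝ))) mu := fun n m =>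
    (hi.ofReal.bdd_mul (c := 1) (Measurable.aestronglyMeasurable (by fun_prop))
      (aeD.mono fun z hz => by
        rw [norm_mul, norm_pow, norm_pow, RCLike.norm_conj, ← pow_add]; exact pw_le hz _)).const_mul _
  have e : ∀ z : ℂ, ((‖∑ n ∈ Finset.range N, a n * z ^ n‖ ^ 2 * ψ ‖z‖ : ℝ) : ℂ) =
      ∑ n ∈ Finset.range N, ∑ m ∈ Finset.range N, a n * (starRingEnd ℂ) (a m) *
        (z ^ n * (starRingEnd ℂ) z ^ m * (ψ ‖z‖ : ℝ)) := fun z => by
    rw [ofReal_mul, ← normSq_eq_norm_sq, ← mul_conj, map_sum, Finset.sum_mul_sum, Finset.sum_mul]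
    refine Finset.sum_congr rfl fun n _ => ?_
    rw [Finset.sum_mul]
    refine Finset.sum_congr rfl fun m _ => ?_
    rw [map_mul, map_pow]; ring
  refine ⟨((integrable_finsetSum _ fun n _ => integrable_finsetSum _ fun m _ => i n m).congr
    (ae_of_all _ fun z => (e z).symm)).re.congr (ae_of_all _ fun z => ofReal_re _), ?_⟩
  apply ofReal_injective
  rw [← integral_complex_ofReal]
  simp only [e]
  rw [integral_finsetSum _ fun n _ => integrable_finsetSum _ fun m _ => i n m, ofReal_sum]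
  refine Finset.sum_congr rfl fun n hn => ?_
  rw [integral_finsetSum _ fun m _ => i n m, Finset.sum_eq_single_of_mem n hn fun m _ h => by
    rw [integral_const_mul, off ψ h.symm, mul_zero], integral_const_mul, mul_conj,
    normSq_eq_norm_sq, ofReal_mul, ← integral_complex_ofReal]
  congr 2
  funext z
  rw [← mul_pow, mul_conj, normSq_eq_norm_sq]
  push_cast; ring

lemma moment (n : ℕ) : ((n : ℝ) + 1) ^ 2 * ∫ z, ‖z‖ ^ (2 * n) * (1 - ‖z‖ ^ 2) ∂mu ≤ π := by
  have c : Continuous fun z : ℂ => ((‖z‖ ^ (2 * n) * (1 - ‖z‖ ^ 2) : ℝ) : ℂ) := by fun_prop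
  have e := polarD ((c.continuousOn.integrableOn_compact (isCompact_closedBall 0 1)).mono_set
    ball_subset_closedBall)
  rw [icongr (g := fun s => ((2 * π * (s ^ (2 * n + 1) - s ^ (2 * n + 3)) : ℝ) : ℂ)) 0
    fun s hs _ => by
      rw [circleAverage_congr_sphere (f₂ := fun _ => ((s ^ (2 * n) * (1 - s ^ 2) : ℝ) : ℂ))
        fun z hz => by simp only [mem_sphere_zero_iff_norm.1 hz, abs_of_pos hs.1],
        circleAverage_const, real_smul]
      push_cast; ring, integral_complex_ofReal, intervalIntegral.integral_ofReal,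
    intervalIntegral.integral_const_mul, intervalIntegral.integral_sub (by simp) (by simp),
    integral_pow, integral_pow] at e
  rw [ofReal_injective e]
  have : ((n : ℝ) + 1) ^ 2 * (2 * π * ((1 ^ (2 * n + 1 + 1) - 0 ^ (2 * n + 1 + 1)) /
      (((2 * n + 1 : ℕ) : ℝ) + 1) - (1 ^ (2 * n + 3 + 1) - 0 ^ (2 * n + 3 + 1)) /
      (((2 * n + 3 : ℕ) : ℝ) + 1))) = π * ((n + 1) / (n + 2)) := by
    push_cast; simp; field_simp; ring
  rw [this]
  exact mul_le_of_le_one_right pi_pos.le (div_le_one_of_le₀ (by linarith) (by positivity))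

section
variable {ψ : ℝ → ℝ} (hi : Integrable (fun z : ℂ => ψ ‖z‖) mu) {M : ℝ} (M0 : 0 < M)
  (hM : ∫ z, ψ ‖z‖ ∂mu ≤ M) {σ : ℂ → ℝ} (hσ : Measurable σ)
  (h0 : ∀ z ∈ ball (0 : ℂ) 1, 0 ≤ σ z ∧ σ z ≤ ψ ‖z‖) {f : ℂ → ℂ} (hf : Measurable f) {B : ℝ}
  (hB : ∀ z, ‖f z‖ ≤ B)
include hi hσ h0

lemma s_int : Integrable σ mu := hi.mono' hσ.aestronglyMeasurable (aeD.mono fun z hz => by
  rw [Real.norm_of_nonneg (h0 z hz).1]; exact (h0 z hz).2)

include hf hB

lemma g_int : Integrable (fun z => f z * σ z) mu :=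
  (s_int hi hσ h0).ofReal.bdd_mul hf.aestronglyMeasurable (ae_of_all _ hB)

lemma A_int : Integrable (fun z => ‖f z‖ ^ 2 * σ z) mu :=
  (s_int hi hσ h0).bdd_mul (c := B ^ 2) (Measurable.aestronglyMeasurable (by fun_prop))
    (ae_of_all _ fun z => by
      rw [norm_pow, norm_norm]; exact pow_le_pow_left₀ (norm_nonneg _) (hB z) 2)

lemma c_int (n : ℕ) : Integrable (fun z => f z * σ z * (starRingEnd ℂ) z ^ n) mu :=
  (g_int hi hσ h0 hf hB).mul_bdd (c := 1) (Measurable.aestronglyMeasurable (by fun_prop))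
    (aeD.mono fun z hz => by rw [norm_pow, RCLike.norm_conj]; exact pw_le hz _)

include M0 hM

lemma bessel (N : ℕ) : ∑ n ∈ Finset.range N, ‖∫ z, f z * σ z * (starRingEnd ℂ) z ^ n ∂mu‖ ^ 2 ≤
    M * ∫ z, ‖f z‖ ^ 2 * σ z ∂mu := by
  obtain ⟨c, hc⟩ : ∃ c : ℕ → ℂ, ∀ n, c n = ∫ z, f z * σ z * (starRingEnd ℂ) z ^ n ∂mu :=
    ⟨_, fun _ => rfl⟩
  simp only [← hc]
  obtain ⟨o1, o2⟩ := orth hi N c
  have a : ∫ z, ‖∑ n ∈ Finset.range N, c n * z ^ n‖ ^ 2 * ψ ‖z‖ ∂mu ≤
      M * ∑ n ∈ Finset.range N, ‖c n‖ ^ 2 := by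
    rw [o2, mul_comm, Finset.sum_mul]
    refine Finset.sum_le_sum fun n _ => mul_le_mul_of_nonneg_left (le_trans ?_ hM) (by positivity)
    refine integral_mono_of_nonneg (aeD.mono fun z hz => mul_nonneg (by positivity)
      ((h0 z hz).1.trans (h0 z hz).2)) hi (aeD.mono fun z hz => ?_)
    exact mul_le_of_le_one_left ((h0 z hz).1.trans (h0 z hz).2) (pw_le hz _)
  have e : ((∑ n ∈ Finset.range N, ‖c n‖ ^ 2 : ℝ) : ℂ) = ∫ z, ∑ n ∈ Finset.range N,
      f z * σ z * (starRingEnd ℂ) z ^ n * (starRingEnd ℂ) (c n) ∂mu := by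
    rw [integral_finsetSum _ fun n _ => (c_int hi hσ h0 hf hB n).mul_const _, ofReal_sum]
    refine Finset.sum_congr rfl fun n _ => ?_
    rw [integral_mul_const, ← hc, mul_conj, normSq_eq_norm_sq]
  have b := norm_integral_le_of_norm_le (μ := mu) (f := fun z => ∑ n ∈ Finset.range N,
      f z * σ z * (starRingEnd ℂ) z ^ n * (starRingEnd ℂ) (c n))
    (((A_int hi hσ h0 hf hB).const_mul (M / 2)).add (o1.const_mul (1 / (2 * M))))
    (aeD.mono fun z hz => by
      have : ∑ n ∈ Finset.range N, f z * σ z * (starRingEnd ℂ) z ^ n * (starRingEnd ℂ) (c n) =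
          f z * σ z * (starRingEnd ℂ) (∑ n ∈ Finset.range N, c n * z ^ n) := by
        rw [map_sum, Finset.mul_sum]
        exact Finset.sum_congr rfl fun n _ => by rw [map_mul, map_pow]; ring
      obtain ⟨s0, s1⟩ := h0 z hz
      rw [this, norm_mul, norm_mul, RCLike.norm_conj, norm_real, Real.norm_of_nonneg s0,
        Pi.add_apply]
      generalize ‖∑ n ∈ Finset.range N, c n * z ^ n‖ = p
      have := mul_le_mul_of_nonneg_left (mul_le_mul_of_nonneg_left s1 (sq_nonneg p))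
        (show 0 ≤ 1 / (2 * M) by positivity)
      have q : 0 ≤ σ z / (2 * M) * (M * ‖f z‖ - p) ^ 2 := by positivity
      have : σ z / (2 * M) * (M * ‖f z‖ - p) ^ 2 = M / 2 * (‖f z‖ ^ 2 * σ z) +
        1 / (2 * M) * (p ^ 2 * σ z) - ‖f z‖ * σ z * p := by field_simp; ring
      linarith)
  rw [← e, norm_real, Real.norm_of_nonneg (by positivity)] at b
  simp only [Pi.add_apply] at b
  rw [integral_add ((A_int hi hσ h0 hf hB).const_mul _) (o1.const_mul _), integral_const_mul,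
    integral_const_mul] at b
  have := mul_le_mul_of_nonneg_left a (show 0 ≤ 1 / (2 * M) by positivity)
  rw [← mul_assoc, show 1 / (2 * M) * M = 1 / 2 by field_simp] at this
  linarith

lemma berg : ∫⁻ z, ‖∫ ζ, f ζ * σ ζ / (1 - z * (starRingEnd ℂ) ζ) ^ 2 ∂mu‖ₑ ^ 2 *
    ENNReal.ofReal (1 - ‖z‖ ^ 2) ∂mu ≤ ENNReal.ofReal (π * (M * ∫ z, ‖f z‖ ^ 2 * σ z ∂mu)) := by
  obtain ⟨c, hc⟩ : ∃ c : ℕ → ℂ, ∀ n, c n = ∫ z, f z * σ z * (starRingEnd ℂ) z ^ n ∂mu :=
    ⟨_, fun _ => rfl⟩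
  have t : ∀ z ∈ ball (0 : ℂ) 1, HasSum (fun n : ℕ => (n + 1) * c n * z ^ n)
      (∫ ζ, f ζ * σ ζ / (1 - z * (starRingEnd ℂ) ζ) ^ 2 ∂mu) := fun z hz => by
    have z1 := mem_ball_zero_iff.1 hz
    have := hasSum_integral_of_summable_integral_norm (μ := mu) (F := fun (n : ℕ) ζ =>
      f ζ * σ ζ * (starRingEnd ℂ) ζ ^ n * ((n + 1) * z ^ n))
      (fun n => (c_int hi hσ h0 hf hB n).mul_const _) (Summable.of_nonneg_of_le
        (fun n => integral_nonneg fun _ => norm_nonneg _) (fun n => ?_)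
        ((summable_choose_mul_geometric_of_norm_lt_one 1 (r := ‖z‖) (by simpa using z1)).mul_left
          (∫ ζ, ‖f ζ * σ ζ‖ ∂mu)))
    · convert this using 1
      · rfl
      · funext n
        rw [integral_mul_const, ← hc]; ring
      · refine integral_congr_ae (aeD.mono fun ζ hζ => ?_)
        have := (hasSum_choose_mul_geometric_of_norm_lt_one 1 (r := z * (starRingEnd ℂ) ζ) (by
          rw [norm_mul, RCLike.norm_conj]
          exact mul_lt_one_of_nonneg_of_lt_one_left (norm_nonneg _) z1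
            (mem_ball_zero_iff.1 hζ).le)).mul_left (f ζ * σ ζ)
        rw [mul_one_div] at this
        refine this.tsum_eq.symm.trans (tsum_congr fun n => ?_)
        simp only [Nat.choose_one_right]; push_cast; ring
    · rw [← integral_mul_const]
      refine integral_mono_of_nonneg (ae_of_all _ fun _ => norm_nonneg _)
        ((g_int hi hσ h0 hf hB).norm.mul_const _) (aeD.mono fun ζ hζ => ?_)
      simp only [Nat.choose_one_right]
      rw [norm_mul, norm_mul _ (_ ^ n), norm_pow, RCLike.norm_conj, norm_mul _ (_ ^ n), norm_pow,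
        ← Nat.cast_succ, Complex.norm_natCast]
      exact mul_le_mul_of_nonneg_right (mul_le_of_le_one_right (norm_nonneg _) (pw_le hζ _))
        (by positivity)
  have w : Integrable (fun z : ℂ => 1 - ‖z‖ ^ 2) mu :=
    ((show Continuous fun z : ℂ => 1 - ‖z‖ ^ 2 by fun_prop).continuousOn.integrableOn_compact
      (isCompact_closedBall 0 1)).mono_set ball_subset_closedBall
  refine (lintegral_congr_ae (g := fun z => liminf (fun N => ENNReal.ofReal
    (‖∑ n ∈ Finset.range N, (n + 1) * c n * z ^ n‖ ^ 2 * (1 - ‖z‖ ^ 2))) atTop)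
    (aeD.mono fun z hz => ?_)).trans_le ((lintegral_liminf_le fun N => by fun_prop).trans
    (liminf_le_of_frequently_le' (Frequently.of_forall fun N => ?_)))
  · simp only
    rw [(ENNReal.tendsto_ofReal (((t z hz).tendsto_sum_nat.norm.pow 2).mul_const _)).liminf_eq,
      ENNReal.ofReal_mul (by positivity), ENNReal.ofReal_pow (norm_nonneg _), ofReal_norm]
  · obtain ⟨o1, o2⟩ := orth (ψ := fun s => 1 - s ^ 2) w N fun n => (n + 1) * c n
    rw [← ofReal_integral_eq_lintegral_ofReal o1 (aeD.mono fun z hz => mul_nonneg (by positivity)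
      (sub_nonneg.2 (pw_le hz 2))), o2]
    refine ENNReal.ofReal_le_ofReal (le_trans ?_ (mul_le_mul_of_nonneg_left
      (bessel hi M0 hM hσ h0 hf hB N) pi_pos.le))
    rw [Finset.mul_sum]
    refine Finset.sum_le_sum fun n _ => ?_
    rw [← hc, norm_mul, ← Nat.cast_succ, Complex.norm_natCast, mul_pow, mul_right_comm]
    push_cast
    exact mul_le_mul_of_nonneg_right (moment n) (by positivity)

end

end Pool.Agent.H.MP_c1f8f0_an
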