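import Mathlib
import Pool.Agent.H.MP_c1f8f0_an.A

namespace Pool.Agent.H.MP_c1f8f0_an

open MeasureTheory Set Filter Topology Metric Complex Real Pool.Agent.H.MP_435399_an

noncomputable def t (k : ℕ) : ℝ := (1 / 2) ^ (4 ^ k)

noncomputable def hg (k : ℕ) (s : ℝ) : ℝ := (1 / 2) ^ k / t k ^ 2 * max (s - (1 - t k)) 0

/-- a convex nondecreasing function on the half-line below 1 -/
noncomputable def phi (s : ℝ) : ℝ := ∑' k, hg k s

lemma t_pos (k : ℕ) : 0 < t k := by unfold t; positivity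

lemma t_le (k : ℕ) : t k ≤ 1 / 2 :=
  pow_le_of_le_one (by norm_num) (by norm_num) (by positivity)

lemma cpos (k : ℕ) : 0 < (1 / 2) ^ k / t k ^ 2 := by have := t_pos k; positivity

lemma hg_nonneg (k : ℕ) (s : ℝ) : 0 ≤ hg k s := mul_nonneg (cpos k).le (le_max_right _ _)

lemma hg_cont (k : ℕ) : Continuous (hg k) := by unfold hg; fun_prop

lemma fin {ρ : ℝ} (h : ρ < 1) : ∃ K, ∀ s ≤ ρ, ∀ k ∉ Finset.range K, hg k s = 0 := by
  have : Tendsto t atTop (𝓝 0) := (tendsto_pow_atTop_nhds_zero_of_lt_one (by norm_num)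
    (by norm_num)).comp (tendsto_pow_atTop_atTop_of_one_lt (by norm_num))
  obtain ⟨K, hK⟩ := eventually_atTop.1 (this.eventually (ge_mem_nhds (sub_pos.2 h)))
  refine ⟨K, fun s hs k hk => ?_⟩
  have := hK k (by simpa using hk)
  rw [hg, max_eq_right (by linarith), mul_zero]

lemma phi_sum {s : ℝ} (h : s < 1) : Summable fun k => hg k s :=
  let ⟨_, hK⟩ := fin h
  summable_of_ne_finset_zero (hK s le_rfl)

lemma phi_cont {s : ℝ} (h : s < 1) : ContinuousAt phi s := by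
  obtain ⟨ρ, r1, r2⟩ := exists_between h
  obtain ⟨K, hK⟩ := fin r2
  exact (continuous_finsetSum (Finset.range K) fun k _ => hg_cont k).continuousAt.congr
    ((ge_mem_nhds r1 : ∀ᶠ x in _, x ≤ ρ).mono fun x hx => (tsum_eq_sum (hK x hx)).symm)

lemma phi_nonneg (s : ℝ) : 0 ≤ phi s := tsum_nonneg fun k => hg_nonneg k s

lemma phi_meas : Measurable phi := Measurable.tsum fun k => (hg_cont k).measurable

lemma phi_mono {s s' : ℝ} (h : s ≤ s') (h' : s' < 1) : phi s ≤ phi s' :=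
  (phi_sum (h.trans_lt h')).tsum_le_tsum (fun k => mul_le_mul_of_nonneg_left
    (max_le_max (by linarith) le_rfl) (cpos k).le) (phi_sum h')

lemma phi_zero {s : ℝ} (h : s ≤ 1 / 2) : phi s = 0 := by
  have : ∀ k, hg k s = 0 := fun k => by rw [hg, max_eq_right (by linarith [t_le k]), mul_zero]
  simp [phi, this]

lemma phi_ge (k : ℕ) {s : ℝ} (h : s < 1) : hg k s ≤ phi s :=
  (phi_sum h).le_tsum k fun j _ => hg_nonneg j s

lemma phi_supp {s0 : ℝ} (h : s0 < 1) : ∃ α β, 0 ≤ α ∧ phi s0 = α * s0 + β ∧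
    ∀ s < 1, α * s + β ≤ phi s := by
  obtain ⟨K, hK⟩ := fin h
  let a : ℕ → ℝ := fun k => if 1 - t k < s0 then (1 / 2) ^ k / t k ^ 2 else 0
  have e : ∀ s, (∑ k ∈ Finset.range K, a k) * s + ∑ k ∈ Finset.range K, -(a k * (1 - t k)) =
      ∑ k ∈ Finset.range K, a k * (s - (1 - t k)) := fun s => by
    rw [Finset.sum_mul, ← Finset.sum_add_distrib]
    exact Finset.sum_congr rfl fun k _ => by ring
  refine ⟨_, _, Finset.sum_nonneg fun k _ => ?_, ((tsum_eq_sum (hK s0 le_rfl)).trans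
    (Finset.sum_congr rfl fun k _ => ?_)).trans (e s0).symm, fun s hs => (e s).trans_le
    ((Finset.sum_le_sum fun k _ => ?_).trans ((phi_sum hs).sum_le_tsum _
      fun k _ => hg_nonneg k s))⟩
  · simp only [a]; split_ifs; exacts [(cpos k).le, le_rfl]
  · simp only [a, hg]; split_ifs with c
    · rw [max_eq_left (by linarith)]
    · rw [max_eq_right (by linarith), mul_zero, zero_mul]
  · simp only [a]; split_ifs with c
    · exact mul_le_mul_of_nonneg_left (le_max_left _ _) (cpos k).le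
    · rw [zero_mul]; exact hg_nonneg k s

lemma vol_An {a b : ℝ} (ha : 0 ≤ a) (hab : a ≤ b) (hb : b ≤ 1) :
    volume (An a b) = ENNReal.ofReal (π * (b ^ 2 - a ^ 2)) := by
  rw [← P_int ha hab hb (z := 0) (by simp)]
  simp [P]

lemma psi_int : Integrable (fun z : ℂ => phi (‖z‖ ^ 2)) mu := by
  refine ⟨(phi_meas.comp (by fun_prop)).aestronglyMeasurable,
    (hasFiniteIntegral_iff_ofReal (ae_of_all _ fun z => phi_nonneg _)).2 ?_⟩
  rw [lintegral_congr_ae (f := fun z : ℂ => ENNReal.ofReal (phi (‖z‖ ^ 2)))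
    (g := fun z => ∑' k, ENNReal.ofReal (hg k (‖z‖ ^ 2)))
    (aeD.mono fun z hz => ENNReal.ofReal_tsum_of_nonneg (fun k => hg_nonneg k _) (phi_sum
      (pow_lt_one₀ (norm_nonneg _) (mem_ball_zero_iff.1 hz) two_ne_zero))),
    lintegral_tsum (f := fun k (z : ℂ) => ENNReal.ofReal (hg k (‖z‖ ^ 2)))
      fun k => ((hg_cont k).measurable.comp
      (by fun_prop)).ennreal_ofReal.aemeasurable]
  refine (ENNReal.tsum_le_tsum (g := fun k => ENNReal.ofReal (2 * π * (1 / 2) ^ k))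
    fun k => ?_).trans_lt ?_
  · have t0 := t_pos k
    have t1 := t_le k
    refine (setLIntegral_mono' measurableSet_ball (g := (An (1 - t k) 1).indicator
      fun _ => ENNReal.ofReal ((1 / 2) ^ k / t k)) fun z hz => ?_).trans
      ((setLIntegral_le_lintegral _ _).trans ?_)
    · have z1 := mem_ball_zero_iff.1 hz
      have z0 := norm_nonneg z
      by_cases c : 1 - t k < ‖z‖
      · rw [indicator_of_mem (show z ∈ An (1 - t k) 1 from ⟨c, z1⟩)]
        refine ENNReal.ofReal_le_ofReal ((mul_le_mul_of_nonneg_left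
          (max_le (by nlinarith) t0.le) (cpos k).le).trans_eq (by field_simp))
      · rw [hg, max_eq_right (by nlinarith), mul_zero, ENNReal.ofReal_zero]
        exact zero_le
    · rw [lintegral_indicator_const (An_meas _ _), vol_An (by linarith) (by linarith) le_rfl,
        ← ENNReal.ofReal_mul (by positivity)]
      refine ENNReal.ofReal_le_ofReal ?_
      rw [div_mul_eq_mul_div, div_le_iff₀ t0]
      have : 0 < π * (1 / 2) ^ k * t k ^ 2 := by positivity
      nlinarith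
  · rw [← ENNReal.ofReal_tsum_of_nonneg (fun k => by positivity)
      (summable_geometric_two.mul_left _)]
    exact ENNReal.ofReal_lt_top

lemma subm {u : ℂ → ℝ} {G : ℂ → ℂ} {z : ℂ} {r : ℝ} (hr : 0 < r)
    (hu : ContinuousOn u (closedBall z r)) (hG : DifferentiableOn ℂ G (closedBall z r))
    (h : ∀ ζ ∈ closedBall z r, (G ζ).re ≤ u ζ) :
    (G z).re ≤ (2 * π)⁻¹ * ∫ θ in (0 : ℝ)..2 * π, u (z + (r : ℂ) * exp ((θ : ℂ) * I)) := by
  have i := (hG.continuousOn.mono sphere_subset_closedBall).circleIntegrable hr.le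
  rw [← (hG.diffContOnCl_ball (R := |r|) (by rw [abs_of_pos hr])).circleAverage, ← reCLM_apply,
    ← reCLM.circleAverage_comp_comm i]
  exact circleAverage_mono ((continuous_re.comp_continuousOn (hG.continuousOn.mono
    sphere_subset_closedBall)).circleIntegrable hr.le)
    ((hu.mono sphere_subset_closedBall).circleIntegrable hr.le)
    fun ζ hζ => h ζ (sphere_subset_closedBall (by rwa [abs_of_pos hr] at hζ))

noncomputable def v (z : ℂ) : ℝ := ‖z‖ ^ 2 - 2 * max (1 / 2 - z.re) 0 ^ 2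

noncomputable def sig (z : ℂ) : ℝ := phi (v z)

noncomputable def w (z : ℂ) : ℝ := (1 - ‖z‖ ^ 2) / ‖1 + z‖ ^ 2

lemma v_le (z : ℂ) : v z ≤ ‖z‖ ^ 2 := sub_le_self _ (by positivity)

lemma sq_lt {z : ℂ} (hz : z ∈ ball (0 : ℂ) 1) : ‖z‖ ^ 2 < 1 :=
  pow_lt_one₀ (norm_nonneg _) (mem_ball_zero_iff.1 hz) two_ne_zero

lemma sig_cont : ContinuousOn sig (ball 0 1) := fun z hz =>
  ((phi_cont ((v_le z).trans_lt (sq_lt hz))).comp
    (show Continuous v by unfold v; fun_prop).continuousAt).continuousWithinAt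

lemma sig_sub (z : ℂ) (r : ℝ) (hr : 0 < r) (h : closedBall z r ⊆ ball 0 1) :
    sig z ≤ (2 * π)⁻¹ * ∫ θ in (0 : ℝ)..2 * π, sig (z + (r : ℂ) * exp ((θ : ℂ) * I)) := by
  obtain ⟨α, β, a0, a1, a2⟩ := phi_supp ((v_le z).trans_lt (sq_lt (h (mem_closedBall_self hr.le))))
  obtain ⟨m, hm⟩ : ∃ m, m = max (z.re - 1 / 2) 0 := ⟨_, rfl⟩
  have e : ∀ ζ : ℂ, ((α : ℂ) * (-ζ ^ 2 + 2 * ζ - ((1 / 2 - 2 * m ^ 2 : ℝ) : ℂ) +
      (4 * m : ℝ) * (ζ - z.re)) + β).re = α * (ζ.im ^ 2 - ζ.re ^ 2 + 2 * ζ.re - 1 / 2 + 2 * m ^ 2 +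
      4 * m * (ζ.re - z.re)) + β := fun ζ => by
    simp only [add_re, mul_re, sub_re, neg_re, ofReal_re, ofReal_im, sq, re_ofNat, im_ofNat]
    ring
  have n : ∀ ζ : ℂ, ‖ζ‖ ^ 2 = ζ.re ^ 2 + ζ.im ^ 2 := fun ζ => by
    rw [← normSq_eq_norm_sq, normSq_apply]; ring
  refine le_trans (le_of_eq ?_) (subm hr (sig_cont.mono h) (G := fun ζ => (α : ℂ) * (-ζ ^ 2 + 2 * ζ -
    ((1 / 2 - 2 * m ^ 2 : ℝ) : ℂ) + (4 * m : ℝ) * (ζ - z.re)) + β) (by fun_prop) fun ζ hζ => ?_)
  · rw [e, sig, a1, v, n, hm]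
    rcases le_total z.re (1 / 2) with c | c
    · rw [max_eq_left (by linarith), max_eq_right (by linarith)]; ring
    · rw [max_eq_right (by linarith), max_eq_left (by linarith)]; ring
  · refine le_trans ?_ (a2 _ ((v_le ζ).trans_lt (sq_lt (h hζ))))
    rw [e, v, n, hm]
    refine add_le_add (mul_le_mul_of_nonneg_left ?_ a0) le_rfl
    rcases le_total z.re (1 / 2) with c | c <;> rcases le_total ζ.re (1 / 2) with d | d
    · rw [max_eq_right (by linarith), max_eq_left (by linarith)]; nlinarith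
    · rw [max_eq_right (by linarith), max_eq_right (by linarith)]; nlinarith
    · rw [max_eq_left (by linarith), max_eq_left (by linarith)]; nlinarith
    · rw [max_eq_left (by linarith), max_eq_right (by linarith)]
      nlinarith [sq_nonneg (ζ.re - z.re)]

lemma one_add_ne (z : ℂ) : 1 - ‖z‖ ≤ ‖1 + z‖ := by
  have := norm_sub_norm_le 1 (-z)
  rwa [norm_one, norm_neg, sub_neg_eq_add] at this

lemma w_cont : ContinuousOn w (ball 0 1) := ContinuousOn.div₀ (by fun_prop) (by fun_prop)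
  fun z hz => (pow_pos ((sub_pos.2 (mem_ball_zero_iff.1 hz)).trans_le (one_add_ne z)) 2).ne'

lemma w_sub (z : ℂ) (r : ℝ) (hr : 0 < r) (h : closedBall z r ⊆ ball 0 1) :
    w z ≤ (2 * π)⁻¹ * ∫ θ in (0 : ℝ)..2 * π, w (z + (r : ℂ) * exp ((θ : ℂ) * I)) := by
  have e : ∀ ζ : ℂ, ((1 - ζ) / (1 + ζ)).re = w ζ := fun ζ => by
    rw [w, ← normSq_eq_norm_sq, ← normSq_eq_norm_sq, div_re, ← add_div]
    congr 1
    simp [normSq_apply]; ring
  exact (e z).symm.trans_le (subm hr (w_cont.mono h) (G := fun ζ => (1 - ζ) / (1 + ζ))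
    (DifferentiableOn.div (by fun_prop) (by fun_prop) fun ζ hζ => norm_pos_iff.1
      ((sub_pos.2 (mem_ball_zero_iff.1 (h hζ))).trans_le (one_add_ne ζ))) fun ζ _ => (e ζ).le)

end Pool.Agent.H.MP_c1f8f0_an
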