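import Mathlib
import Pool.Agent.H.MP_c1f8f0_an.B

namespace Pool.Agent.H.MP_c1f8f0_an

open MeasureTheory Set Filter Topology Metric Complex Real Pool.Agent.H.MP_435399_an

lemma A_eq {σ : ℂ → ℝ} {f : ℂ → ℂ} (h : Integrable (fun z => ‖f z‖ ^ 2 * σ z) mu)
    (h0 : ∀ z ∈ ball (0 : ℂ) 1, 0 ≤ σ z) : ∫⁻ z, ‖f z‖ₑ ^ 2 * ENNReal.ofReal (σ z) ∂mu =
      ENNReal.ofReal (∫ z, ‖f z‖ ^ 2 * σ z ∂mu) := by
  rw [ofReal_integral_eq_lintegral_ofReal h (aeD.mono fun z hz =>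
    mul_nonneg (by positivity) (h0 z hz))]
  refine lintegral_congr fun z => ?_
  rw [ENNReal.ofReal_mul (by positivity), ENNReal.ofReal_pow (norm_nonneg _), ofReal_norm]

lemma sig_meas : Measurable sig := phi_meas.comp (by unfold v; fun_prop)

lemma sig_le (z : ℂ) (hz : z ∈ ball (0 : ℂ) 1) : 0 ≤ sig z ∧ sig z ≤ phi (‖z‖ ^ 2) :=
  ⟨phi_nonneg _, phi_mono (v_le z) (sq_lt hz)⟩

lemma bdd : ∃ C : NNReal, ∀ f : ℂ → ℂ, Measurable f → (∃ M : ℝ, ∀ z, ‖f z‖ ≤ M) →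
    ∫⁻ z, ‖∫ ζ, f ζ * (sig ζ : ℂ) / (1 - z * starRingEnd ℂ ζ) ^ 2 ∂mu‖ₑ ^ 2 *
      ENNReal.ofReal (w z) ∂mu ≤ C * ∫⁻ ζ, ‖f ζ‖ₑ ^ 2 * ENNReal.ofReal (sig ζ) ∂mu := by
  obtain ⟨M, hM⟩ : ∃ M, M = ∫ z : ℂ, phi (‖z‖ ^ 2) ∂mu + 1 := ⟨_, rfl⟩
  have M0 : 0 < M := hM ▸ add_pos_of_nonneg_of_pos (integral_nonneg fun z => phi_nonneg _) one_pos
  have M1 : ∫ z : ℂ, phi (‖z‖ ^ 2) ∂mu ≤ M := by linarith
  refine ⟨(36 * π * M).toNNReal, fun f hf ⟨B, hB⟩ => ?_⟩
  have a1 := berg (ψ := fun s => phi (s ^ 2)) psi_int M0 M1 sig_meas sig_le hf hB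
  have a2 := bessel (ψ := fun s => phi (s ^ 2)) psi_int M0 M1 sig_meas sig_le
    (f := fun z => (‖f z‖ : ℂ)) (by fun_prop) (B := B) (by simpa using hB) 1
  have a3 := (g_int (ψ := fun s => phi (s ^ 2)) psi_int sig_meas sig_le hf hB).norm
  rw [A_eq (A_int (ψ := fun s => phi (s ^ 2)) psi_int sig_meas sig_le hf hB)
    fun z hz => (sig_le z hz).1]
  simp only [Finset.sum_range_one, pow_zero, mul_one, norm_real, ← ofReal_mul,
    integral_complex_ofReal, Real.norm_eq_abs, sq_abs] at a2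
  have A0 : 0 ≤ ∫ z, ‖f z‖ ^ 2 * sig z ∂mu :=
    integral_nonneg fun z => mul_nonneg (by positivity) (phi_nonneg _)
  generalize ∫ z, ‖f z‖ ^ 2 * sig z ∂mu = A at *
  refine (setLIntegral_mono' measurableSet_ball (g := fun z => ENNReal.ofReal (32 * (M * A)) *
    (ball (-1) (1 / 2)).indicator (fun u => ENNReal.ofReal ‖u - -1‖⁻¹) z +
    4 * (‖∫ ζ, f ζ * (sig ζ : ℂ) / (1 - z * starRingEnd ℂ ζ) ^ 2 ∂mu‖ₑ ^ 2 *
      ENNReal.ofReal (1 - ‖z‖ ^ 2))) fun z hz => ?_).trans ?_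
  · have z1 := mem_ball_zero_iff.1 hz
    have z0 := norm_nonneg z
    have z2 := one_add_ne z
    have z3 : 0 < ‖1 + z‖ := by linarith
    by_cases c : z ∈ ball (-1 : ℂ) (1 / 2)
    · have c' : ‖1 + z‖ < 1 / 2 := by simpa [dist_eq_norm, add_comm] using c
      have b := norm_integral_le_of_norm_le (μ := mu) (f := fun ζ => f ζ * (sig ζ : ℂ) /
        (1 - z * starRingEnd ℂ ζ) ^ 2) (a3.const_mul 4) (aeD.mono fun ζ hζ => by
        by_cases d : ζ.re ≤ 0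
        · have : sig ζ = 0 := phi_zero (by
            rw [v, max_eq_left (by linarith)]; nlinarith [sq_lt hζ])
          simp [this]
        · have u := norm_sub_norm_le (1 + (starRingEnd ℂ) ζ) ((1 + z) * (starRingEnd ℂ) ζ)
          have u1 := re_le_norm (1 + (starRingEnd ℂ) ζ)
          have u2 := mem_ball_zero_iff.1 hζ
          rw [show 1 + (starRingEnd ℂ) ζ - (1 + z) * (starRingEnd ℂ) ζ =
            1 - z * (starRingEnd ℂ) ζ by ring, norm_mul, RCLike.norm_conj] at u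
          rw [add_re, one_re, conj_re] at u1
          have u3 : 1 / 2 ≤ ‖1 - z * (starRingEnd ℂ) ζ‖ := by nlinarith [norm_nonneg ζ]
          rw [norm_div, norm_pow, div_le_iff₀ (by positivity)]
          nlinarith [mul_le_mul_of_nonneg_left (pow_le_pow_left₀ (by norm_num) u3 2)
            (norm_nonneg (f ζ * sig ζ))])
      rw [integral_const_mul] at b
      simp only [norm_mul, norm_real, Real.norm_of_nonneg (show 0 ≤ sig _ from phi_nonneg _)] at b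
      refine le_add_right ?_
      rw [indicator_of_mem c, ← ofReal_norm, ← ENNReal.ofReal_pow (norm_nonneg _),
        ← ENNReal.ofReal_mul (by positivity), ← ENNReal.ofReal_mul (by positivity),
        sub_neg_eq_add, add_comm z]
      refine ENNReal.ofReal_le_ofReal ?_
      have e : w z ≤ 2 * ‖1 + z‖⁻¹ := by
        rw [w, div_le_iff₀ (by positivity), sq ‖1 + z‖, mul_assoc, inv_mul_cancel_left₀ z3.ne']
        nlinarith
      have := mul_le_mul ((pow_le_pow_left₀ (norm_nonneg _) b 2).trans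
        (show _ ≤ 16 * (M * A) by linarith)) e
        (div_nonneg (by nlinarith) (by positivity)) (by positivity)
      linarith
    · have c' : 1 / 2 ≤ ‖1 + z‖ := by simpa [dist_eq_norm, add_comm] using c
      refine le_add_left ?_
      rw [mul_left_comm, ← ENNReal.ofReal_ofNat 4, ← ENNReal.ofReal_mul (by norm_num)]
      refine mul_le_mul_right (ENNReal.ofReal_le_ofReal ?_) _
      rw [w, div_le_iff₀ (by positivity)]
      nlinarith [mul_le_mul_of_nonneg_left (pow_le_pow_left₀ (by norm_num) c' 2)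
        (show 0 ≤ 1 - ‖z‖ ^ 2 by nlinarith)]
  · rw [lintegral_add_left (Measurable.const_mul (Measurable.indicator (by fun_prop)
      measurableSet_ball) _), lintegral_const_mul' _ _ ENNReal.ofReal_ne_top,
      lintegral_const_mul' _ _ (by norm_num)]
    refine (add_le_add (mul_le_mul_right ((setLIntegral_le_lintegral _ _).trans
      ((lintegral_indicator measurableSet_ball _).trans_le (nearI _ _))) _)
      (mul_le_mul_right a1 _)).trans (le_of_eq ?_)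
    have := pi_pos
    rw [← ENNReal.ofReal_ofNat 4, ← ENNReal.ofReal_mul (by norm_num),
      ← ENNReal.ofReal_mul (by positivity), ← ENNReal.ofReal_mul (by positivity),
      ← ENNReal.ofReal_add (by positivity) (by positivity), ← ENNReal.ofReal.eq_def,
      ← ENNReal.ofReal_mul (by positivity)]
    congr 1; ring

lemma inner_ge {z : ℂ} {τ a : ℝ} (t0 : 0 < τ) (a0 : 0 < a) (z1 : 127 / 128 < ‖z‖)
    (z2 : ‖z‖ < 1 - τ / 2) (z3 : 3 / 4 < z.re) {G : ℂ → ENNReal}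
    (hG : ∀ ζ ∈ An (1 - τ / 4) (1 - τ / 8), 1 / 2 ≤ ζ.re →
      ENNReal.ofReal (a / ‖1 - z * starRingEnd ℂ ζ‖ ^ 2) ≤ G ζ) :
    ENNReal.ofReal (a * (π * ((1 - τ / 8) ^ 2 - (1 - τ / 4) ^ 2)) / (8 * (1 - ‖z‖))) ≤
      ∫⁻ ζ, G ζ ∂mu := by
  have y0 : 0 < 1 - ‖z‖ := by linarith
  have e := P_int (a := 1 - τ / 4) (b := 1 - τ / 8) (by linarith) (by linarith) (by linarith)
    (z := z) (by linarith)
  have e' := vol_An (a := 1 - τ / 4) (b := 1 - τ / 8) (by linarith) (by linarith) (by linarith)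
  have E0 : 0 ≤ π * ((1 - τ / 8) ^ 2 - (1 - τ / 4) ^ 2) := mul_nonneg pi_pos.le (by nlinarith)
  generalize π * ((1 - τ / 8) ^ 2 - (1 - τ / 4) ^ 2) = E at *
  have b : ∫⁻ ζ in An (1 - τ / 4) (1 - τ / 8), ENNReal.ofReal a * ENNReal.ofReal (P ζ z) ≤
      ∫⁻ ζ in An (1 - τ / 4) (1 - τ / 8), (ENNReal.ofReal (3 * (1 - ‖z‖)) * G ζ +
        ENNReal.ofReal (48 * (1 - ‖z‖) * a)) := setLIntegral_mono' (An_meas _ _) fun ζ hζ => by
    have u1 : 1 - τ / 4 < ‖ζ‖ := hζ.1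
    have u2 : ‖ζ‖ < 1 - τ / 8 := hζ.2
    have u3 : 1 - ‖ζ‖ ^ 2 * ‖z‖ ^ 2 ≤ 3 * (1 - ‖z‖) := by
      nlinarith [mul_nonneg (show 0 ≤ 1 - ‖ζ‖ ^ 2 by nlinarith) (show 0 ≤ 1 - ‖z‖ ^ 2 by nlinarith)]
    rw [← ENNReal.ofReal_mul a0.le, P, mul_comm _ z]
    by_cases c : 1 / 2 ≤ ζ.re
    · refine le_add_right (le_trans ?_ (mul_le_mul_right (hG ζ hζ c) _))
      rw [← ENNReal.ofReal_mul (by positivity), ← mul_div_assoc, ← mul_div_assoc, mul_comm a]
      exact ENNReal.ofReal_le_ofReal (div_le_div_of_nonneg_right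
        (mul_le_mul_of_nonneg_right u3 a0.le) (by positivity))
    · refine le_add_left (ENNReal.ofReal_le_ofReal ?_)
      have q : ‖1 - z * starRingEnd ℂ ζ‖ ^ 2 = ‖z - ζ‖ ^ 2 + (1 - ‖z‖ ^ 2) * (1 - ‖ζ‖ ^ 2) := by
        simp only [← normSq_eq_norm_sq]
        simp [normSq_apply]; ring
      have q1 := re_le_norm (z - ζ)
      rw [sub_re] at q1
      have q2 : 1 / 16 ≤ ‖1 - z * starRingEnd ℂ ζ‖ ^ 2 := by
        nlinarith [mul_nonneg (show 0 ≤ 1 - ‖z‖ ^ 2 by nlinarith) (show 0 ≤ 1 - ‖ζ‖ ^ 2 by nlinarith)]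
      rw [mul_comm a]
      refine mul_le_mul_of_nonneg_right ((div_le_iff₀ (by linarith)).2 (by nlinarith)) a0.le
  rw [lintegral_const_mul' _ _ ENNReal.ofReal_ne_top, e, lintegral_add_right _ measurable_const,
    lintegral_const_mul' _ _ ENNReal.ofReal_ne_top, setLIntegral_const, e',
    ← ENNReal.ofReal_mul a0.le, ← ENNReal.ofReal_mul (by positivity), ← tsub_le_iff_right,
    ← ENNReal.ofReal_sub _ (by positivity)] at b
  refine le_trans ((ENNReal.mul_le_mul_iff_right (a := ENNReal.ofReal (3 * (1 - ‖z‖)))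
    (by simpa using y0) ENNReal.ofReal_ne_top).1 (le_trans ?_ b))
    (lintegral_mono_set fun ζ hζ => mem_ball_zero_iff.2 (by linarith [hζ.2]))
  rw [← ENNReal.ofReal_mul (by positivity)]
  refine ENNReal.ofReal_le_ofReal ?_
  rw [show 3 * (1 - ‖z‖) * (a * E / (8 * (1 - ‖z‖))) = 3 / 8 * (a * E) by field_simp]
  nlinarith [mul_nonneg a0.le E0]

lemma outer_ge {τ κ : ℝ} (t0 : 0 < τ) (t1 : τ < 1 / 64) (k0 : 0 ≤ κ) {G : ℂ → ENNReal}
    (hG : ∀ z, 127 / 128 < ‖z‖ → ‖z‖ < 1 - τ / 2 → 3 / 4 < z.re →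
      ENNReal.ofReal (2 * κ / (1 - ‖z‖)) ≤ G z) :
    ENNReal.ofReal (κ * Real.log (1 / 128 / (τ / 2))) ≤ ∫⁻ z, G z ∂mu := by
  rw [← lintegral_indicator measurableSet_ball, ← Complex.lintegral_comp_polarCoord_symm]
  refine le_trans (le_trans (le_of_eq ?_) (setLIntegral_mono' (measurableSet_Ioo.prod
    measurableSet_Ioo) (f := fun p : ℝ × ℝ => ENNReal.ofReal (κ * (1 - p.1)⁻¹) * 1) fun p hp => ?_))
    (lintegral_mono_set (s := Ioo (127 / 128) (1 - τ / 2) ×ˢ Ioo (-(1 / 2)) (1 / 2))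
      fun p hp => ⟨mem_Ioi.2 (by linarith [hp.1.1]), by linarith [hp.2.1, pi_gt_three],
        by linarith [hp.2.2, pi_gt_three]⟩)
  · have c : ContinuousOn (fun r : ℝ => κ * (1 - r)⁻¹) (Icc (127 / 128) (1 - τ / 2)) :=
      continuousOn_const.mul (ContinuousOn.inv₀ (by fun_prop) fun r hr => by linarith [hr.2])
    rw [Measure.volume_eq_prod, ← Measure.prod_restrict, lintegral_prod_mul
      (f := fun r : ℝ => ENNReal.ofReal (κ * (1 - r)⁻¹)) (g := fun _ => 1) (by fun_prop)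
      (by fun_prop), ← ofReal_integral_eq_lintegral_ofReal (c.integrableOn_Icc.mono_set
        Ioo_subset_Icc_self) ((ae_restrict_mem measurableSet_Ioo).mono fun r hr =>
        mul_nonneg k0 (inv_nonneg.2 (by linarith [hr.2]))), ← integral_Ioc_eq_integral_Ioo,
      ← intervalIntegral.integral_of_le (by linarith), intervalIntegral.integral_const_mul,
      intervalIntegral.integral_comp_sub_left (fun x : ℝ => x⁻¹),
      integral_inv_of_pos (by linarith) (by linarith)]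
    norm_num
  · have p1 : 127 / 128 < p.1 := hp.1.1
    have p2 : p.1 < 1 - τ / 2 := hp.1.2
    have n : ‖Complex.polarCoord.symm p‖ = p.1 :=
      (norm_polarCoord_symm _).trans (abs_of_pos (by linarith))
    have r : (Complex.polarCoord.symm p).re = p.1 * Real.cos p.2 := by
      simp [-ofReal_cos, -ofReal_sin]
    have c := Real.one_sub_sq_div_two_le_cos (x := p.2)
    rw [indicator_of_mem (mem_ball_zero_iff.2 (by linarith)), smul_eq_mul, mul_one]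
    refine le_trans ?_ (mul_le_mul_right (hG _ (by linarith) (by linarith)
      (by rw [r]; nlinarith [hp.2.1, hp.2.2])) _)
    rw [← ENNReal.ofReal_mul (by linarith), n, div_eq_mul_inv]
    refine ENNReal.ofReal_le_ofReal ?_
    nlinarith [mul_nonneg k0 (inv_nonneg.2 (show 0 ≤ 1 - p.1 by linarith))]

lemma notPlus {σ u : ℂ → ℝ} (hm : Measurable σ) (hσ : ∀ z ∈ ball (0 : ℂ) 1, sig z ≤ σ z)
    (hu : ∀ z ∈ ball (0 : ℂ) 1, (1 - ‖z‖ ^ 2) / 4 ≤ u z) :
    ¬ ∃ C : NNReal, ∀ f : ℂ → ℂ, Measurable f → (∃ M : ℝ, ∀ z, ‖f z‖ ≤ M) →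
      (∃ s : ℝ, s < 1 ∧ ∀ z : ℂ, s < ‖z‖ → f z = 0) →
      ∫⁻ z, (∫⁻ ζ, ‖f ζ‖ₑ * ENNReal.ofReal (σ ζ) / ‖1 - z * starRingEnd ℂ ζ‖ₑ ^ 2 ∂mu) ^ 2 *
        ENNReal.ofReal (u z) ∂mu ≤ C * ∫⁻ ζ, ‖f ζ‖ₑ ^ 2 * ENNReal.ofReal (σ ζ) ∂mu := by
  rintro ⟨C, hC⟩
  obtain ⟨k, hk⟩ := exists_nat_gt (11000 * (C : ℝ) + 7)
  have C0 := C.coe_nonneg
  have k2 : (k : ℝ) < 2 ^ k := by exact_mod_cast Nat.lt_two_pow_self
  have k4 : ((4 ^ k : ℕ) : ℝ) = 2 ^ k * 2 ^ k := by rw [← mul_pow]; norm_num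
  have t0 := t_pos k
  have t1 : t k < 1 / 64 := by
    have : (7 : ℝ) ≤ (4 ^ k : ℕ) := by nlinarith
    exact (pow_le_pow_of_le_one (by norm_num) (by norm_num) (by exact_mod_cast this)).trans_lt
      (by norm_num : (1 / 2 : ℝ) ^ 7 < _)
  have lg : Real.log (1 / 128 / (t k / 2)) = (2 ^ k * 2 ^ k - 6) * Real.log 2 := by
    rw [show 1 / 128 / (t k / 2) = (2 ^ 6 * t k)⁻¹ by field_simp; norm_num, Real.log_inv,
      Real.log_mul (by norm_num) t0.ne', t, Real.log_pow, Real.log_pow, one_div, Real.log_inv, k4]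
    push_cast; ring
  obtain ⟨a, ha⟩ : ∃ a, a = (1 / 2) ^ k / (2 * t k) := ⟨_, rfl⟩
  have a0 : 0 < a := by rw [ha]; positivity
  have s1 : ∀ z ∈ An (1 - t k / 4) (1 - t k / 8) ∩ {z | 1 / 2 ≤ z.re}, a ≤ σ z := fun z hz => by
    have u1 : 1 - t k / 4 < ‖z‖ := hz.1.1
    have u2 : z ∈ ball (0 : ℂ) 1 := mem_ball_zero_iff.2 (by linarith [hz.1.2])
    have u3 : 1 / 2 ≤ z.re := hz.2
    refine le_trans ?_ ((phi_ge k ((v_le z).trans_lt (sq_lt u2))).trans (hσ z u2))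
    rw [hg, v, max_eq_right (a := 1 / 2 - z.re) (by linarith), ha,
      show (1 / 2) ^ k / (2 * t k) = (1 / 2) ^ k / t k ^ 2 * (t k / 2) by field_simp]
    exact mul_le_mul_of_nonneg_left (le_max_of_le_left (by nlinarith)) (cpos k).le
  have mB : MeasurableSet (An (1 - t k / 4) (1 - t k / 8) ∩ {z | 1 / 2 ≤ z.re}) :=
    (An_meas _ _).inter (measurableSet_le measurable_const measurable_re)
  generalize hB : An (1 - t k / 4) (1 - t k / 8) ∩ {z | 1 / 2 ≤ z.re} = Bx at s1 mB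
  have nf : ∀ z ∈ Bx, ‖Bx.indicator (fun z => ((a / σ z : ℝ) : ℂ)) z‖ = a / σ z := fun z hz => by
    rw [indicator_of_mem hz, norm_real, Real.norm_of_nonneg (div_nonneg a0.le (a0.le.trans (s1 z hz)))]
  have h := hC (Bx.indicator fun z => ((a / σ z : ℝ) : ℂ)) (Measurable.indicator (by fun_prop) mB)
    ⟨1, fun z => by
      by_cases c : z ∈ Bx
      · rw [nf z c]; exact div_le_one_of_le₀ (s1 z c) (a0.le.trans (s1 z c))
      · simp [c]⟩
    ⟨1 - t k / 8, by linarith, fun z hz => indicator_of_notMem (fun c => by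
      rw [← hB] at c; linarith [c.1.2]) _⟩
  have E1 : π * (t k / 16) ≤ π * ((1 - t k / 8) ^ 2 - (1 - t k / 4) ^ 2) :=
    mul_le_mul_of_nonneg_left (by nlinarith) pi_pos.le
  have e' := vol_An (a := 1 - t k / 4) (b := 1 - t k / 8) (by linarith) (by linarith) (by linarith)
  have i1 := fun z z1 z2 z3 => inner_ge (z := z) t0 a0 z1 z2 z3 (G := fun ζ =>
    ‖Bx.indicator (fun z => ((a / σ z : ℝ) : ℂ)) ζ‖ₑ * ENNReal.ofReal (σ ζ) /
      ‖1 - z * starRingEnd ℂ ζ‖ₑ ^ 2) fun ζ h1 h2 => by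
    have c : ζ ∈ Bx := hB ▸ ⟨h1, h2⟩
    have s0 := a0.trans_le (s1 ζ c)
    rw [← ofReal_norm, ← ofReal_norm, nf ζ c, ← ENNReal.ofReal_mul (by positivity),
      div_mul_cancel₀ _ s0.ne', ← ENNReal.ofReal_pow (norm_nonneg _)]
    exact ENNReal.ofReal_div_le (by positivity)
  generalize π * ((1 - t k / 8) ^ 2 - (1 - t k / 4) ^ 2) = E at *
  have E0 : 0 < E := lt_of_lt_of_le (by positivity) E1
  have r : ∫⁻ ζ, ‖Bx.indicator (fun z => ((a / σ z : ℝ) : ℂ)) ζ‖ₑ ^ 2 * ENNReal.ofReal (σ ζ) ∂mu ≤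
      ENNReal.ofReal (a * E) := by
    rw [ENNReal.ofReal_mul a0.le, ← e', ← lintegral_indicator_const (An_meas _ _)]
    refine (setLIntegral_le_lintegral _ _).trans (lintegral_mono fun ζ => ?_)
    by_cases c : ζ ∈ Bx
    · have s0 := a0.trans_le (s1 ζ c)
      rw [← ofReal_norm, nf ζ c, ← ENNReal.ofReal_pow (by positivity),
        ← ENNReal.ofReal_mul (by positivity), indicator_of_mem (hB ▸ c).1]
      refine ENNReal.ofReal_le_ofReal ?_
      rw [sq, mul_assoc, div_mul_cancel₀ _ s0.ne']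
      exact mul_le_of_le_one_left a0.le (div_le_one_of_le₀ (s1 ζ c) s0.le)
    · simp [c]
  have l := ((outer_ge (κ := (a * E) ^ 2 / 512) t0 t1 (by positivity) fun z z1 z2 z3 =>
    le_trans ?_ (mul_le_mul' (pow_le_pow_left' (i1 z z1 z2 z3) 2) (ENNReal.ofReal_le_ofReal
      (hu z (mem_ball_zero_iff.2 (by linarith)))))).trans h).trans (mul_le_mul_right r _)
  · rw [← ENNReal.ofReal_coe_nnreal, ← ENNReal.ofReal_mul C0,
      ENNReal.ofReal_le_ofReal_iff (by positivity), lg] at l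
    have x1 : (a * E) * ((2 ^ k * 2 ^ k - 6) * Real.log 2) ≤ 512 * C :=
      le_of_mul_le_mul_left (by linarith) (mul_pos a0 E0)
    have x2 : 3 / 32 ≤ 2 ^ k * (a * E) := by
      have : 2 ^ k * (a * (π * (t k / 16))) = π / 32 := by rw [ha, one_div_pow]; field_simp; ring
      have := mul_le_mul_of_nonneg_left (mul_le_mul_of_nonneg_left E1 a0.le)
        (show (0 : ℝ) ≤ 2 ^ k by positivity)
      linarith [pi_gt_three]
    have x3 : 2 ^ k * (2 ^ k - 6) * (1 / 2) ≤ (2 ^ k * 2 ^ k - 6 : ℝ) * Real.log 2 :=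
      mul_le_mul (by nlinarith) (by linarith [Real.log_two_gt_d9]) (by norm_num) (by nlinarith)
    have x4 := mul_le_mul_of_nonneg_left x3 (mul_pos a0 E0).le
    nlinarith
  · have y0 : 0 < 1 - ‖z‖ := by linarith
    rw [← ENNReal.ofReal_pow (by positivity), ← ENNReal.ofReal_mul (by positivity)]
    refine ENNReal.ofReal_le_ofReal ?_
    rw [show 2 * ((a * E) ^ 2 / 512) / (1 - ‖z‖) =
      (a * E / (8 * (1 - ‖z‖))) ^ 2 * ((1 - ‖z‖) / 4) by field_simp; norm_num]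
    exact mul_le_mul_of_nonneg_left (by nlinarith) (by positivity)

end Pool.Agent.H.MP_c1f8f0_an
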